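import Pool.Agent.Helper42.SLC.Goals

/-!
# Project SL: LEO (the case of the trivial extension)
-/

set_option autoImplicit false

namespace Pool.Agent.Helper8.SLC

open Pool.Agent.Helper17.SL Pool.Agent.Helper42.SLC
open Pool.Agent.Helper51.SigLeo Pool.Agent.Helper51.SixExp NumberField Module TensorProduct

universe u v w x y z

/-- elements of finite order vanish in the tensor product -/
theorem tmul_tors {k M : Type*} [Field k] [CharZero k] [AddCommGroup M] (a : k) (t : M) (n : ℕ)
    (hn : 0 < n) (ht : n • t = 0) : a ⊗ₜ[ℤ] t = 0 := by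
  have hn' : (n : k) ≠ 0 := by exact_mod_cast hn.ne'
  have h1 : a = (n : ℤ) • (a / n) := by
    rw [zsmul_eq_mul]
    push_cast
    field_simp
  rw [h1, TensorProduct.smul_tmul, natCast_zsmul, ht, TensorProduct.tmul_zero]

/-- every element of the tensor product is a pure tensor if the group is generated by one element
up to torsion -/
theorem exists_tmul {k M : Type*} [Field k] [CharZero k] [AddCommGroup M] (η : M)
    (h : ∀ u : M, ∃ (n : ℕ) (m : ℤ) (t : M), 0 < n ∧ n • t = 0 ∧ u = t + m • η)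
    (y : k ⊗[ℤ] M) : ∃ c : k, y = c ⊗ₜ[ℤ] η := by
  induction y using TensorProduct.induction_on with
  | zero => exact ⟨0, by rw [TensorProduct.zero_tmul]⟩
  | tmul a u =>
    obtain ⟨n, m, t, hn, ht, hu⟩ := h u
    refine ⟨m • a, ?_⟩
    rw [hu, TensorProduct.tmul_add, tmul_tors a t n hn ht, zero_add, TensorProduct.smul_tmul]
  | add y z hy hz =>
    obtain ⟨c, hc⟩ := hy
    obtain ⟨d, hd⟩ := hz
    exact ⟨c + d, by rw [hc, hd, TensorProduct.add_tmul]⟩

theorem leo : S_LEO.{u, v, w, x} := by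
  intro K _ _ _ H _ _ _ Ω _ _ _ p _ k _ _ _ ιinf ιp S χ Λ hK hH hS
  have hchar : CharZero k := charZero_of_padic p (k := k)
  have hfd : FiniteDimensional K H := FiniteDimensional.of_finrank_pos (by omega)
  have hTC : IsTotallyComplex H := isTotallyComplex_of_algebra K H
  have hH4 : finrank ℚ H = 4 := by
    rw [← finrank_mul_finrank ℚ K H, hK, hH]
  have hrank : Units.rank H = 1 := by
    have h1 := InfinitePlace.card_add_two_mul_card_eq_rank H
    have h2 := InfinitePlace.card_eq_nrRealPlaces_add_nrComplexPlaces H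
    have h3 : InfinitePlace.nrRealPlaces H = 0 := IsTotallyComplex.nrRealPlaces_eq_zero H
    unfold Units.rank
    omega
  have hsub : Subsingleton (Fin (Units.rank H)) := by
    rw [hrank]; infer_instance
  set i0 : Fin (Units.rank H) := ⟨0, by omega⟩ with hi0
  set η : Additive (𝓞 H)ˣ := Additive.ofMul (Units.fundSystem H i0) with hη
  have hgen : ∀ u : Additive (𝓞 H)ˣ, ∃ (n : ℕ) (m : ℤ) (t : Additive (𝓞 H)ˣ), 0 < n ∧
      n • t = 0 ∧ u = t + m • η := by
    intro u
    obtain ⟨⟨ζ, e⟩, he, -⟩ := Units.exist_unique_eq_mul_prod H u.toMul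
    obtain ⟨n, hn, hζ⟩ := isOfFinOrder_iff_pow_eq_one.mp
      ((CommGroup.mem_torsion _).mp ζ.2)
    refine ⟨n, e i0, Additive.ofMul (ζ : (𝓞 H)ˣ), hn, ?_, ?_⟩
    · rw [← ofMul_pow, hζ, ofMul_one]
    · rw [hη, ← ofMul_zpow, ← ofMul_mul]
      apply Additive.toMul.injective
      rw [toMul_ofMul, he]
      congr 1
      exact Fintype.prod_subsingleton _ i0
  intro x hx
  obtain ⟨c, hc⟩ := exists_tmul η hgen (eChi (finrank K H) χ unitsHom x)
  -- an embedding in the CM type
  obtain ⟨φ, hφ⟩ : ∃ φ, φ ∈ S := by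
    obtain ⟨φ⟩ : Nonempty (K →+* ℂ) := inferInstance
    by_cases h : φ ∈ S
    · exact ⟨φ, h⟩
    · refine ⟨ComplexEmbedding.conjugate φ, ?_⟩
      by_contra h2
      exact h ((hS φ).mpr h2)
  obtain ⟨κ, hκ⟩ := exists_lift_embedding ιinf φ
  obtain ⟨σ, hσ⟩ := exists_extend_embedding (H := H) κ
  have h1 := hx (logUnits Λ (ιp.comp σ)) ⟨σ, by rw [hσ, hκ]; exact hφ, rfl⟩
  rw [hc, extHom_tmul] at h1
  rcases mul_eq_zero.mp h1 with h2 | h2
  · rw [hc, h2, TensorProduct.zero_tmul]
  · rw [hη, ← log_img] at h2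
    obtain ⟨N, hN, hpow⟩ := torsion_of_log_eq_zero p ιp Λ _ (img_isUnitAlg σ _) h2
    rw [hc]
    apply tmul_tors c η N hN
    rw [hη, ← ofMul_pow]
    apply Additive.toMul.injective
    rw [toMul_ofMul, toMul_zero]
    have h3 : (img σ (Units.fundSystem H i0 ^ N) : Ω) = 1 := by
      have h4 : img σ (Units.fundSystem H i0 ^ N) = (img σ (Units.fundSystem H i0)) ^ N := by
        unfold img
        rw [map_pow]
      rw [h4, hpow, Units.val_one]
    rw [img_coe] at h3
    apply Units.ext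
    apply RingOfIntegers.ext
    apply σ.injective
    rw [h3]
    simp

end Pool.Agent.Helper8.SLC
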